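import Pool.Agent.Lib.ALL_h17.Dich
import Pool.Agent.Lib.ALL5.Rows

/-!
# PROJECT ALL, real block Y, row 5e, in the notation of the block
-/

set_option autoImplicit false

open Polynomial

namespace Pool.Agent.ALL

open Pool.Agent.H15JM (RVal)
open Pool.Agent.LU1 (VPos)
open Pool.Agent.LU3 (resv)
open Pool.Agent.D2 (SpL natU_of_triv)

universe u

variable {k Ω : Type u} [Field k] [Field Ω] [Algebra k Ω] {v : RVal Ω} {n r : ℕ}

/-- Row 5e. -/
theorem dichotomy5 {p : ℕ} (hp : p.Prime) [CharP k p] {Ω₀ : IntermediateField k Ω}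
    [IsAlgClosed Ω₀] (h : TA.CtxR k v n r) {n₀ : ℕ} (hc : TA.CtxR k (resv v Ω₀) n₀ r)
    {z : Ω} (hz0 : 0 < v z) (hz : Transcendental Ω₀ z) (L0 : IntermediateField k Ω₀)
    {A : Ω₀[X]} (hA : ∀ j, A.coeff j ∈ L0) (hge : ∀ j, (resv v Ω₀).Ge 0 (A.coeff j))
    {M : ℕ} (hlow : ∀ j < M, VPos (resv v Ω₀) (A.coeff j)) (hne : A.coeff M ≠ 0)
    (hMv : resv v Ω₀ (A.coeff M) = 0) (hM0 : 0 < M) (hMp : M < p) :
    (∃ ζ : Ω₀, A.eval ζ = 0 ∧ VPos (resv v Ω₀) ζ ∧ ∃ ψ ∈ L0,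
      v (z - (ζ : Ω)) ≤ v (z - (ψ : Ω)) ∧ v z ≤ v (z - (ψ : Ω)) ∧
      ∃ g ∈ L0, g ≠ 0 ∧ resv v Ω₀ g = v (z - (ψ : Ω))) ∨
    ∃ ψ ∈ L0, v z ≤ v (z - (ψ : Ω)) ∧
      ∀ g ∈ L0, g ≠ 0 → resv v Ω₀ g ≠ v (z - (ψ : Ω)) := by
  have _ : CharP Ω p := charP_of_injective_algebraMap (algebraMap k Ω).injective p
  have _hc := hc
  have hcoe : ∀ x : L0, algebraMap L0 Ω x = ((x : Ω₀) : Ω) := fun _ => rfl
  have hsp : SpL L0 Ω := ⟨fun P => by
    have h1 : P.map (algebraMap L0 Ω) = (P.map (algebraMap L0 Ω₀)).map (algebraMap Ω₀ Ω) := by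
      rw [Polynomial.map_map]
      rfl
    rw [h1]
    exact (IsAlgClosed.splits _).map _⟩
  obtain ⟨B, hB⟩ : ∃ B : L0[X], B.map (algebraMap L0 Ω₀) = A := by
    have h1 : A ∈ Polynomial.lifts (algebraMap L0 Ω₀) := by
      rw [Polynomial.lifts_iff_coeff_lifts]
      intro j
      exact ⟨⟨A.coeff j, hA j⟩, rfl⟩
    exact (Polynomial.mem_lifts A).mp h1
  have hco : ∀ j, (((B.coeff j : L0) : Ω₀)) = A.coeff j := by
    intro j
    rw [← hB, coeff_map]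
    rfl
  have hroot : ∀ ζ : Ω₀, aeval (ζ : Ω) B = ((A.eval ζ : Ω₀) : Ω) := by
    intro ζ
    rw [← hB, eval_map_algebraMap]
    exact aeval_algebraMap_apply Ω ζ B
  have hB0 : B ≠ 0 := by
    rintro rfl
    apply hne
    rw [← hco M, coeff_zero]
    rfl
  -- all roots in `Ω` are in `Ω₀`
  have hroots : ∀ ζ : Ω, aeval ζ B = 0 → ∃ ζ₀ : Ω₀, (ζ₀ : Ω) = ζ := by
    intro ζ hζ
    have hne0 : (B.map (algebraMap L0 Ω₀)).map (algebraMap Ω₀ Ω) ≠ 0 :=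
      (Polynomial.map_ne_zero_iff (algebraMap Ω₀ Ω).injective).mpr
        ((Polynomial.map_ne_zero_iff (algebraMap L0 Ω₀).injective).mpr hB0)
    have h1 : ζ ∈ ((B.map (algebraMap L0 Ω₀)).map (algebraMap Ω₀ Ω)).roots := by
      rw [mem_roots hne0, IsRoot, Polynomial.map_map]
      have h2 : (algebraMap Ω₀ Ω).comp (algebraMap L0 Ω₀) = algebraMap L0 Ω := rfl
      rw [h2, eval_map_algebraMap]
      exact hζ
    rw [(IsAlgClosed.splits (B.map (algebraMap L0 Ω₀))).roots_map, Multiset.mem_map] at h1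
    obtain ⟨ζ₀, -, h2⟩ := h1
    exact ⟨ζ₀, h2⟩
  have htr : Transcendental L0 z := by
    intro h1
    exact hz (h1.tower_top Ω₀)
  have hres : ∀ g : Ω, v.Ge 0 g → ∃ c : L0, VPos v (g - algebraMap L0 Ω c) := by
    intro g hg
    by_cases h0 : g = 0
    · refine ⟨0, ?_⟩
      rw [h0, map_zero, sub_zero]
      exact LU1.VPos.zero
    rcases (hg h0).lt_or_eq with h1 | h1
    · refine ⟨0, ?_⟩
      rw [map_zero, sub_zero]
      exact fun _ => h1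
    · obtain ⟨c, -, hc⟩ := h.res g h0 h1.symm
      exact ⟨algebraMap k L0 c, hc⟩
  have key := ALL17.dichotomy (L := L0) (Ω := Ω) (v := v) (z := z) hp
    (natU_of_triv (k := k) h.triv) hres htr hz0 (A := B) (M := M)
    (fun i h0 => by
      have h1 : A.coeff i ≠ 0 := by
        intro h2
        apply h0
        rw [hcoe, hco, h2]
        rfl
      have h2 := hge i h1
      rw [hcoe, hco]
      exact h2)
    (fun i hi h0 => by
      have h1 : A.coeff i ≠ 0 := by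
        intro h2
        apply h0
        rw [hcoe, hco, h2]
        rfl
      have h2 := hlow i hi h1
      rw [hcoe, hco]
      exact h2)
    (fun h0 => hne (by rw [← hco M, h0]; rfl))
    (by rw [hcoe, hco]; exact hMv) hM0 hMp
  rcases key with ⟨ζ, ψ, h1, h2, h3, h4, c, hc0, hcv⟩ | ⟨ψ, h1, h2⟩
  · left
    obtain ⟨ζ₀, rfl⟩ := hroots ζ h1
    refine ⟨ζ₀, ?_, ?_, ψ, ψ.2, h3, h4, c, c.2, fun h0 => hc0 (Subtype.ext h0), hcv⟩
    · rw [hroot] at h1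
      exact Subtype.ext h1
    · intro h0
      exact h2 fun h5 => h0 (Subtype.ext h5)
  · right
    exact ⟨ψ, ψ.2, h1, fun g hg hg0 => h2 ⟨g, hg⟩ fun h0 => hg0 (congrArg Subtype.val h0)⟩

theorem row5e (k : Type u) [Field k] (p : ℕ) (hp : p.Prime) [CharP k p] : Row5e k p := by
  intro Ω _ _ v n r n₀ Ω₀ _ h hc z hz0 hz L₀ A M hA hge hlow hne hMv hM0 hMp
  rcases dichotomy5 hp h hc hz0 hz L₀ hA hge hlow hne hMv hM0 hMp with h1 | ⟨ψ, h1, -, h3⟩
  · exact Or.inl h1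
  · exact Or.inr ⟨ψ, h1, h3⟩

end Pool.Agent.ALL
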