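import Pool.Agent.Lib.D2_h17.Kap4
import Pool.Agent.Lib.SU_h17.RowA

/-!
# PROJECT ALL, real block Y, row 5e: the dichotomy

`L` a field with a map to the algebraically closed field `Ω` of characteristic `p`, `v` a real
valuation of `Ω` whose residues are in `L`, `z` transcendental over `L` of positive value, `A` a
polynomial over the valuation ring of `L` of residue order `M`, `0 < M < p`.
-/

set_option autoImplicit false

open Polynomial

namespace Pool.Agent.ALL17

open Pool.Agent.H15JM (RVal)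
open Pool.Agent.LU1 (VPos val_add_vpos)
open Pool.Agent.D2 (SpL Star Near al Ev Fa nr phi NatU val_hasseL ge_hasseL map_ne_zero' nr_pos_iff
  exists_kapData)
open Pool.Agent.SUA (FarRoots far_hasse)

universe u w

variable {L : Type w} {Ω : Type u} [Field L] [Field Ω] [Algebra L Ω] [SpL L Ω]
  {v : RVal Ω} {z : Ω}

omit [SpL L Ω] in
theorem hasse_map (P : Polynomial L) (j : ℕ) : hasseDeriv j (P.map (algebraMap L Ω))
    = (hasseDeriv j P).map (algebraMap L Ω) := by
  ext n
  rw [hasseDeriv_coeff, coeff_map, coeff_map, hasseDeriv_coeff, map_mul, map_natCast]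

/-- A polynomial of positive residue order has a root of positive value. -/
theorem exists_vpos_root {A : Polynomial L} {M : ℕ}
    (hlow : ∀ i < M, VPos v (algebraMap L Ω (A.coeff i))) (hne : A.coeff M ≠ 0)
    (hMv : v (algebraMap L Ω (A.coeff M)) = 0) (hM : 0 < M) :
    ∃ ζ : Ω, aeval ζ A = 0 ∧ VPos v ζ := by
  by_contra hcon
  push Not at hcon
  have hA : A ≠ 0 := by
    rintro rfl
    exact hne (coeff_zero M)
  have hA' : A.map (algebraMap L Ω) ≠ 0 := D2.map_ne hA
  have h0 := hcon 0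
  have hR : FarRoots v 0 (0 : Ω) (A.map (algebraMap L Ω)).roots := by
    intro α hα
    have h1 : aeval α A = 0 := by
      rw [← eval_map_algebraMap]
      exact (mem_roots hA').mp hα
    have h2 := hcon α h1
    unfold VPos at h2
    push Not at h2
    rw [zero_sub]
    exact ⟨neg_ne_zero.mpr h2.1, by rw [v.map_neg _ h2.1]; exact h2.2⟩
  obtain ⟨h1, h2⟩ := far_hasse hA' (SpL.splits A) hR
  have h3 := h2 M
  have e1 : (hasseDeriv M (A.map (algebraMap L Ω))).eval 0 = algebraMap L Ω (A.coeff M) := by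
    rw [← taylor_coeff, taylor_zero, coeff_map]
  have e2 : (A.map (algebraMap L Ω)).eval 0 = algebraMap L Ω (A.coeff 0) := by
    rw [← coeff_zero_eq_eval_zero, coeff_map]
  rw [e1, e2] at h3
  rw [e2] at h1
  have h4 := h3 (map_ne_zero' hne)
  have h5 := hlow 0 hM h1
  rw [hMv] at h4
  simp only [mul_zero, sub_zero] at h4
  linarith

/-- The number of near roots is at most the residue order. -/
theorem nr_le_order (hs : Star L v z) (hk : NatU v) (hzpos : 0 < v z) (hz0 : z ≠ 0)
    {A : Polynomial L} {M : ℕ} (hint : ∀ i, v.Ge 0 (algebraMap L Ω (A.coeff i)))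
    (hne : A.coeff M ≠ 0) (hMv : v (algebraMap L Ω (A.coeff M)) = 0) : nr v z A ≤ M := by
  by_contra hcon
  push Not at hcon
  have hA : A ≠ 0 := by
    rintro rfl
    exact hne (coeff_zero M)
  obtain ⟨ψ, hψ1, hψ2⟩ := hs.ex_gt (hs.ev_fa A) 0
  have hal0 : al v z (0 : L) = v z := by
    unfold al
    rw [map_zero, sub_zero]
  rw [hal0] at hψ2
  -- `ψ` has positive value
  have hψpos : VPos v (algebraMap L Ω ψ) := by
    have h1 : algebraMap L Ω ψ = z + -(z - algebraMap L Ω ψ) := by ring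
    have h2 := v.add_of_lt hz0 (neg_ne_zero.mpr (hs.ne ψ)) (by rw [v.map_neg _ (hs.ne ψ)]; exact hψ2)
    rw [h1]
    intro _
    rw [h2.2]
    exact hzpos
  have hcoef : ∀ j, v.Ge 0 ((hasseDeriv j (A.map (algebraMap L Ω))).eval (algebraMap L Ω ψ)) := by
    intro j
    rw [eval_eq_sum_range]
    refine RVal.Ge.sum _ _ fun i _ => ?_
    have h1 : v.Ge 0 ((hasseDeriv j (A.map (algebraMap L Ω))).coeff i) := by
      rw [hasseDeriv_coeff, coeff_map]
      have h2 : v.Ge 0 (((i + j).choose j : ℕ) : Ω) := fun h => (hk _ h).ge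
      have := h2.mul (hint (i + j))
      rwa [add_zero] at this
    have h2 : v.Ge 0 (algebraMap L Ω ψ ^ i) := by
      intro h3
      by_cases h4 : algebraMap L Ω ψ = 0
      · rcases Nat.eq_zero_or_pos i with h5 | h5
        · rw [h5, pow_zero, v.map_one]
        · rw [h4, zero_pow h5.ne'] at h3
          exact absurd rfl h3
      · rw [v.map_pow h4]
        have := hψpos h4
        positivity
    have := h1.mul h2
    rwa [add_zero] at this
  -- the value of `A^[M]` at `ψ`
  have hM1 : (hasseDeriv M (A.map (algebraMap L Ω))).eval (algebraMap L Ω ψ) ≠ 0 ∧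
      v ((hasseDeriv M (A.map (algebraMap L Ω))).eval (algebraMap L Ω ψ)) = 0 := by
    set H := hasseDeriv M (A.map (algebraMap L Ω)) with hH
    have h1 : H.eval (algebraMap L Ω ψ) = H.coeff 0 + algebraMap L Ω ψ * H.divX.eval
        (algebraMap L Ω ψ) := by
      conv_lhs => rw [← H.divX_mul_X_add]
      simp only [eval_add, eval_mul, eval_C, eval_X]
      ring
    have h2 : H.coeff 0 = algebraMap L Ω (A.coeff M) := by
      rw [hH, hasseDeriv_coeff, zero_add, Nat.choose_self, Nat.cast_one, one_mul, coeff_map]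
    rw [h1, h2]
    refine val_add_vpos (map_ne_zero' hne) hMv (hψpos.mul ?_)
    rw [eval_eq_sum_range]
    refine RVal.Ge.sum _ _ fun i _ => ?_
    have h3 : v.Ge 0 (H.divX.coeff i) := by
      rw [coeff_divX, hH, hasseDeriv_coeff, coeff_map]
      have h2 : v.Ge 0 (((i + 1 + M).choose M : ℕ) : Ω) := fun h => (hk _ h).ge
      have := h2.mul (hint (i + 1 + M))
      rwa [add_zero] at this
    have h4 : v.Ge 0 (algebraMap L Ω ψ ^ i) := by
      intro h3
      by_cases h4 : algebraMap L Ω ψ = 0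
      · rcases Nat.eq_zero_or_pos i with h5 | h5
        · rw [h5, pow_zero, v.map_one]
        · rw [h4, zero_pow h5.ne'] at h3
          exact absurd rfl h3
      · rw [v.map_pow h4]
        have := hψpos h4
        positivity
    have := h3.mul h4
    rwa [add_zero] at this
  rw [hasse_map, eval_map_algebraMap, aeval_algebraMap_apply] at hM1
  have h1 := ge_hasseL hs hk hA hψ1 M hM1.1
  have h1' : v (algebraMap L Ω ((hasseDeriv M A).eval ψ)) = 0 := hM1.2
  rw [h1'] at h1
  obtain ⟨h2, h3⟩ := val_hasseL hs hk hA hψ1 (j := nr v z A) (by simp)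
  have h4 := hcoef (nr v z A)
  rw [hasse_map, eval_map_algebraMap, aeval_algebraMap_apply] at h4
  have h5 : 0 ≤ v (algebraMap L Ω ((hasseDeriv (nr v z A) A).eval ψ)) := h4 (map_ne_zero' h2)
  rw [h3, sub_self, zero_mul, add_zero] at h5
  have h6 : (M : ℝ) < nr v z A := by exact_mod_cast hcon
  have h7 : 0 < al v z ψ := hzpos.trans hψ2
  nlinarith [mul_pos (sub_pos.mpr h6) h7]

/-- Row 5e: the dichotomy. -/
theorem dichotomy {p : ℕ} (hp : p.Prime) [CharP Ω p] (hk : NatU v)
    (hres : ∀ g : Ω, v.Ge 0 g → ∃ c : L, VPos v (g - algebraMap L Ω c))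
    (hz : Transcendental L z) (hzpos : 0 < v z) {A : Polynomial L} {M : ℕ}
    (hint : ∀ i, v.Ge 0 (algebraMap L Ω (A.coeff i)))
    (hlow : ∀ i < M, VPos v (algebraMap L Ω (A.coeff i)))
    (hne : A.coeff M ≠ 0) (hMv : v (algebraMap L Ω (A.coeff M)) = 0) (hM : 0 < M) (hMp : M < p) :
    (∃ (ζ : Ω) (ψ : L), aeval ζ A = 0 ∧ VPos v ζ ∧ v (z - ζ) ≤ v (z - algebraMap L Ω ψ) ∧
      v z ≤ v (z - algebraMap L Ω ψ) ∧
      ∃ c : L, c ≠ 0 ∧ v (algebraMap L Ω c) = v (z - algebraMap L Ω ψ)) ∨
    ∃ ψ : L, v z ≤ v (z - algebraMap L Ω ψ) ∧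
      ∀ c : L, c ≠ 0 → v (algebraMap L Ω c) ≠ v (z - algebraMap L Ω ψ) := by
  have hne' : ∀ ψ : L, z - algebraMap L Ω ψ ≠ 0 := by
    intro ψ h0
    rw [sub_eq_zero] at h0
    exact hz (h0 ▸ isAlgebraic_algebraMap ψ)
  have hz0 : z ≠ 0 := by
    have := hne' 0
    rwa [map_zero, sub_zero] at this
  by_cases hB : ∃ ψ : L, ∀ c : L, c ≠ 0 → v (algebraMap L Ω c) ≠ v (z - algebraMap L Ω ψ)
  · -- the second case
    right
    obtain ⟨ψ, hψ⟩ := hB
    refine ⟨ψ, ?_, hψ⟩
    by_contra hlt
    push Not at hlt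
    have h1 := v.add_of_lt (neg_ne_zero.mpr (hne' ψ)) hz0
      (by rw [v.map_neg _ (hne' ψ)]; exact hlt)
    have h2 : -(z - algebraMap L Ω ψ) + z = algebraMap L Ω ψ := by ring
    rw [h2, v.map_neg _ (hne' ψ)] at h1
    exact hψ ψ (fun h0 => h1.1 (by rw [h0, map_zero])) h1.2
  · push Not at hB
    left
    -- no best approximation
    have hs : Star L v z := by
      refine ⟨hne', fun ψ => ?_⟩
      obtain ⟨c, hc0, hcv⟩ := hB ψ
      have hcΩ : algebraMap L Ω c ≠ 0 := map_ne_zero' hc0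
      have h1 : v.Ge 0 ((z - algebraMap L Ω ψ) / algebraMap L Ω c) := by
        intro _
        rw [v.map_div (hne' ψ) hcΩ, hcv, sub_self]
      obtain ⟨a, ha⟩ := hres _ h1
      refine ⟨ψ + a * c, ?_⟩
      have h2 : z - algebraMap L Ω (ψ + a * c)
          = algebraMap L Ω c * ((z - algebraMap L Ω ψ) / algebraMap L Ω c - algebraMap L Ω a) := by
        rw [map_add, map_mul]
        field_simp
        ring
      have h3 := hne' (ψ + a * c)
      unfold al
      rw [h2] at h3 ⊢
      have h4 := right_ne_zero_of_mul h3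
      rw [v.map_mul hcΩ h4, hcv]
      have h5 := ha h4
      linarith
    by_contra hcon
    push Not at hcon
    -- all roots of positive value are near
    have hA : A ≠ 0 := by
      rintro rfl
      exact hne (coeff_zero M)
    have hzal : ∀ ζ : Ω, aeval ζ A = 0 → z - ζ ≠ 0 := by
      intro ζ hζ h0
      rw [sub_eq_zero] at h0
      exact hz ⟨A, hA, by rw [h0]; exact hζ⟩
    have hal0 : al v z (0 : L) = v z := by
      unfold al
      rw [map_zero, sub_zero]
    have hnear : ∀ ζ : Ω, aeval ζ A = 0 → VPos v ζ → Near L v z ζ := by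
      intro ζ hζ hζpos _ ψ
      by_contra h1
      push Not at h1
      -- a nearer `ψ'` with `v z ≤ α(ψ')`
      obtain ⟨ψ', h2, h3⟩ := hs.ex_gt (hs.ev_gt 0) ψ
      rw [hal0] at h2
      obtain ⟨c, hc0, hcv⟩ := hB ψ'
      exact hcon ζ ψ' hζ hζpos (h1.trans h3.le) h2.le c hc0 hcv
    obtain ⟨ζ, hζ, hζpos⟩ := exists_vpos_root hlow hne hMv hM
    have hpos : 0 < nr v z A := (nr_pos_iff hA).mpr ⟨ζ, hnear ζ hζ hζpos, hζ⟩
    have hle := nr_le_order hs hk hzpos hz0 hint hne hMv
    obtain ⟨D⟩ := exists_kapData hs hk hp (B := v (z - ζ))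
      (fun ψ => (hnear ζ hζ hζpos (hzal ζ hζ) ψ).le) hA hpos
    have h1 := D.nr_eq
    rw [D.h_eq] at h1
    have h2 : p ∣ nr v z A := by
      rw [h1]
      exact Dvd.dvd.mul_left (dvd_pow_self p (by have := D.one_le; omega)) _
    have h3 := Nat.le_of_dvd hpos h2
    omega

end Pool.Agent.ALL17
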